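import Pool.Agent.Q299.PPR.PP

/-!
# The limiting law of the p-parts of the class groups of the real quadratic fields

For the real quadratic field `K` of the square root of the squarefree number `d > 1` let `Cl` be the
class group.  Let `p` be a prime, `a > 2` and `M d ≥ 500 log d / log log d`.  Averages and
proportions are over the real quadratic fields of discriminant less than `X`.

Let `G 0, G 1, ...` be pairwise non-isomorphic finite abelian `p`-groups and let `w` be a
probability law on the indices.  The `p`-part of `Cl` has the limiting law `w` if and only if for
all finite sets `S` of exponents and all `κ` the average `FP a M p S κ` of the probability that of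
independent products of `M d` random prime ideals of norm at most `(log d)^a`, `κ j` products for
every `j` in `S`, those that belong to `j` are `p ^ j`-th powers in `Cl`, tends to the sum over `i`
of `w i` times the product over `j` in `S` of the `κ j`-th powers of the inverses of the numbers of
the elements of `G i` that are killed by `p ^ j`.
-/

set_option autoImplicit false

namespace Pool.Agent.Results.MP_16912e_nt.LawOfPParts

open Filter Finset NumberField Pool.Agent.Q299.PPR

theorem result : ∀ a : ℝ, 2 < a → ∀ M : ℕ → ℕ,
    (∀ d : ℕ, 2 ≤ d → Squarefree d → 500 * (Real.log d / Real.log (Real.log d)) ≤ M d) →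
    ∀ p : ℕ, p.Prime → ∀ (G : ℕ → Type) [∀ i, CommGroup (G i)] (w : ℕ → ℝ),
      Family p G w → (LawP p G w ↔ FreqP a M p G w) := by
  intro a ha M hM p hp G _ w ⟨hf, hpG, hG, hw, hs⟩
  exact partP a ha M hM p hp G hpG hG w hw hs

end Pool.Agent.Results.MP_16912e_nt.LawOfPParts
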