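import Pool.Agent.Q299.PPR.Wt

/-!
# The limiting law of the `n`-torsion of the class groups of real quadratic fields

For the real quadratic field `K` of the square root of the squarefree number `d > 1` let `t` be the
number of the elements `c` of the class group `Cl` with `c ^ n = 1` (`n = p` prime: `p` to the power
of the `p`-rank).  Let `a > 2` and `M d ≥ 500 log d / log log d`.  Averages and proportions are over
the real quadratic fields of discriminant less than `X`.

The number `t` has the limiting law `w` (a probability law on the positive integers) if and only if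
for every `k ≥ 1` the average of the probability that for `k` independent products of `M d`
independent random prime ideals of norm at most `(log d)^a` all classes are `n`-th powers in `Cl`
tends to the sum of `w j / j^k`.
-/

set_option autoImplicit false

namespace Pool.Agent.Results.MP_16912e_nt.LawOfTorsion

open Filter Finset NumberField Pool.Agent.Q299.PPR
open scoped Classical

theorem result : ∀ a : ℝ, 2 < a → ∀ M : ℕ → ℕ,
    (∀ d : ℕ, 2 ≤ d → Squarefree d → 500 * (Real.log d / Real.log (Real.log d)) ≤ M d) →
    ∀ (n : ℕ) (w : ℕ → ℝ), (∀ j, 0 ≤ w j) → w 0 = 0 → HasSum w 1 →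
      ((∀ j, 1 ≤ j → Tendsto (fun X => (((rads X).filter (fun d => tor n d = j)).card : ℝ) /
        ((rads X).card : ℝ)) atTop (nhds (w j))) ↔
      ∀ k, 1 ≤ k → Tendsto (fun X => avg X (fun d =>
        share (QS d) ((Real.log d) ^ a) (M d) n ^ k)) atTop (nhds (∑' j, w j / (j : ℝ) ^ k))) :=
  fun a ha M hM n w hw hw0 hs => tor_law a ha M hM n w hw hw0 hs

end Pool.Agent.Results.MP_16912e_nt.LawOfTorsion
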