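import Pool.Agent.Q197.PS.ST
import Pool.Agent.Q197.PS.FD

/-!
# The average of the `p`-torsion of quadratic class groups is decided by samples of `√X` discriminants

Let `p` be an odd prime, and fix a sign. The average of `#Cl(ℚ(√D))[p]` over the fundamental discriminants `D` of this
sign with `|D| < N` tends to `L > 0` if and only if for a fixed positive share `c` of the sets of `m` such discriminants
the average over the set is `L + o(1)`; here one `m ≥ √N` for every `N` is enough, and then the same is true for all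
such `m` and almost all sets.
-/

set_option autoImplicit false

open Finset Filter Topology

namespace Pool.Agent.Results.MP_16912e_nt.SquareRootSamples

/-- `D` is a fundamental discriminant -/
def IsFund (D : ℤ) : Prop :=
  (D % 4 = 1 ∧ D ≠ 1 ∧ Squarefree D) ∨ (∃ m : ℤ, D = 4 * m ∧ (m % 4 = 2 ∨ m % 4 = 3) ∧ Squarefree m)

/-- the fundamental discriminants `0 < D < N` (for `true`) or `-N < D < 0` (for `false`) -/
noncomputable def S (s : Bool) (N : ℕ) : Finset ℤ := by
  classical
  exact (if s then Ioo (0 : ℤ) (N : ℤ) else Ioo (-(N : ℤ)) 0).filter IsFund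

/-- `f(D)` is the number of elements of order dividing `p` of the class group of the quadratic field of
discriminant `D` -/
def IsTorsion (p : ℕ) (f : ℤ → ℕ) : Prop :=
  ∀ (K : Type) [Field K] [NumberField K], Module.finrank ℚ K = 2 →
    f (NumberField.discr K) = Nat.card {x : ClassGroup (NumberField.RingOfIntegers K) // x ^ p = 1}

/-- the sets of `m` discriminants on which the mean value of `f` differs from `L` by at most `δ` -/
noncomputable def good (s : Bool) (f : ℤ → ℕ) (L δ : ℝ) (N m : ℕ) : Finset (Finset ℤ) := by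
  classical
  exact ((S s N).powersetCard m).filter (fun A => |(∑ D ∈ A, (f D : ℝ)) / m - L| ≤ δ)

/-- the other sets of `m` discriminants -/
noncomputable def bad (s : Bool) (f : ℤ → ℕ) (L δ : ℝ) (N m : ℕ) : Finset (Finset ℤ) := by
  classical
  exact ((S s N).powersetCard m).filter (fun A => ¬ |(∑ D ∈ A, (f D : ℝ)) / m - L| ≤ δ)

lemma mem_S {s : Bool} {N : ℕ} {D : ℤ} (hD : D ∈ S s N) : IsFund D ∧ |(D : ℝ)| ≤ N := by
  classical
  unfold S at hD
  rw [mem_filter] at hD
  refine ⟨hD.2, ?_⟩
  have h1 : |D| ≤ (N : ℤ) := by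
    have h2 := hD.1
    cases s
    · rw [if_neg (by decide), mem_Ioo] at h2
      rw [abs_le]
      omega
    · rw [if_pos rfl, mem_Ioo] at h2
      rw [abs_le]
      omega
  exact_mod_cast h1

/-- there are many discriminants -/
lemma card_S (s : Bool) (N : ℕ) : (N : ℝ) / 8 - √N - 2 ≤ (S s N).card := by
  classical
  cases s
  · have h1 := Q197.PS.count_sqf 3 (Or.inr rfl) N
    have h2 : ((range N).filter (fun n => n % 4 = 3 ∧ Squarefree n)).card ≤ (S false N).card := by
      refine card_le_card_of_injOn (fun n : ℕ => -(n : ℤ)) (fun n hn => ?_) (fun a _ b _ hab => ?_)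
      · rw [mem_coe, mem_filter, mem_range] at hn
        show -(n : ℤ) ∈ S false N
        unfold S
        rw [if_neg (by decide), mem_filter, mem_Ioo]
        refine ⟨⟨by omega, by omega⟩, Or.inl ⟨by omega, by omega, ?_⟩⟩
        exact (Int.squarefree_natAbs.1 (by rw [Int.natAbs_neg, Int.natAbs_natCast]; exact hn.2.2))
      · have hab' : -(a : ℤ) = -(b : ℤ) := hab
        omega
    have h3 : (((range N).filter (fun n => n % 4 = 3 ∧ Squarefree n)).card : ℝ) ≤ (S false N).card := by
      exact_mod_cast h2
    linarith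
  · have h1 := Q197.PS.count_sqf 1 (Or.inl rfl) N
    have h2 : (((range N).filter (fun n => n % 4 = 1 ∧ Squarefree n)).erase 1).card ≤ (S true N).card := by
      refine card_le_card_of_injOn (fun n : ℕ => (n : ℤ)) (fun n hn => ?_) (fun a _ b _ hab => ?_)
      · rw [mem_coe, mem_erase, mem_filter, mem_range] at hn
        show (n : ℤ) ∈ S true N
        unfold S
        rw [if_pos rfl, mem_filter, mem_Ioo]
        refine ⟨⟨by omega, by omega⟩, Or.inl ⟨by omega, by omega, ?_⟩⟩
        exact Int.squarefree_natCast.2 hn.2.2.2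
      · have hab' : (a : ℤ) = (b : ℤ) := hab
        omega
    have h4 := pred_card_le_card_erase (s := (range N).filter (fun n => n % 4 = 1 ∧ Squarefree n)) (a := 1)
    have h3 : (((range N).filter (fun n => n % 4 = 1 ∧ Squarefree n)).card : ℝ) ≤ (S true N).card + 1 := by
      have : ((range N).filter (fun n => n % 4 = 1 ∧ Squarefree n)).card ≤ (S true N).card + 1 := by omega
      exact_mod_cast this
    linarith

/-- **Samples of `√N` discriminants decide.** Let `p` be an odd prime, let `f(D)` be the number of elements of order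
dividing `p` of the class group of the quadratic field of discriminant `D`, and fix a sign `s`, `L > 0` and
`0 < c < 1`. The following are equivalent: (1) the average of `f` over the fundamental discriminants `D` of sign `s`,
`|D| < N`, tends to `L`; (2) for every `δ > 0` and all large `N` there is ONE `m ≥ √N` such that at least the share
`c` of the sets of `m` discriminants is good; (3) for every `δ > 0` and all large `N` there are `m` between `√N` and
the number of discriminants, and for ALL these `m` at most the share `δ` of the sets of `m` discriminants is not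
good. -/
theorem result (p : ℕ) (hp : p.Prime) (hp2 : p ≠ 2) (f : ℤ → ℕ) (hf : IsTorsion p f) (s : Bool)
    (L : ℝ) (hL : 0 < L) (c : ℝ) (hc : 0 < c) (hc1 : c < 1) :
    (Tendsto (fun N : ℕ => (∑ D ∈ S s N, (f D : ℝ)) / (S s N).card) atTop (𝓝 L) ↔
      (∀ δ : ℝ, 0 < δ → ∃ N₀ : ℕ, ∀ N : ℕ, N₀ ≤ N → ∃ m : ℕ, √N ≤ m ∧ m ≤ (S s N).card ∧
        c * ((S s N).card.choose m : ℝ) ≤ (good s f L δ N m).card)) ∧
    (Tendsto (fun N : ℕ => (∑ D ∈ S s N, (f D : ℝ)) / (S s N).card) atTop (𝓝 L) ↔
      (∀ δ : ℝ, 0 < δ → ∃ N₀ : ℕ, ∀ N : ℕ, N₀ ≤ N → √N ≤ (S s N).card ∧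
        ∀ m : ℕ, √N ≤ m → m ≤ (S s N).card →
          ((bad s f L δ N m).card : ℝ) ≤ δ * ((S s N).card.choose m : ℝ))) := by
  classical
  obtain ⟨C, hC, htor⟩ := Q197.PS.tor_le p hp hp2
  have hfund : ∀ D, IsFund D → Q197.PS.IsFund D := fun D h => h
  have hlog := (Real.tendsto_log_atTop.comp (tendsto_natCast_atTop_atTop (R := ℝ)))
  have hbig : ∀ᶠ N : ℕ in atTop, √(N : ℝ) ≤ (S s N).card := by
    have h1 : ∀ᶠ N : ℕ in atTop, (32 : ℝ) ≤ √N :=
      ((Real.tendsto_sqrt_atTop).comp (tendsto_natCast_atTop_atTop (R := ℝ))).eventually_ge_atTop 32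
    filter_upwards [h1] with N h2
    refine le_trans ?_ (card_S s N)
    have h3 : √(N : ℝ) * √N = N := Real.mul_self_sqrt (Nat.cast_nonneg _)
    nlinarith
  have hN1 : ∀ᶠ N : ℕ in atTop, 2 ≤ N := eventually_ge_atTop 2
  have key := Q197.PS.samples_decide (l := atTop) (fun N : ℕ => S s N)
    (fun _ D => (f D : ℝ)) (fun N : ℕ => C * (√(N : ℝ) / Real.log N)) (fun N : ℕ => √(N : ℝ))
    hL hc hc1 (by
      filter_upwards [hN1] with N _ D hD
      exact ⟨Nat.cast_nonneg _, htor f hf N D (hfund D (mem_S hD).1) (mem_S hD).2⟩) (by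
      filter_upwards [hN1, hbig] with N h1 h2
      have h3 : (0 : ℝ) < N := by exact_mod_cast (by omega : 0 < N)
      exact ⟨Real.sqrt_pos.2 h3, h2⟩) (by
      have h1 := (tendsto_inv_atTop_zero.comp hlog).const_mul C
      rw [mul_zero] at h1
      refine h1.congr' ?_
      filter_upwards [hN1] with N h2
      have h3 : (0 : ℝ) < N := by exact_mod_cast (by omega : 0 < N)
      have h4 : √(N : ℝ) ≠ 0 := (Real.sqrt_pos.2 h3).ne'
      simp only [Function.comp]
      field_simp)
  obtain ⟨k1, k2⟩ := key
  constructor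
  · rw [k1]
    refine forall_congr' fun δ => forall_congr' fun hδ => ?_
    exact eventually_atTop
  · rw [k2]
    refine forall_congr' fun δ => forall_congr' fun hδ => ?_
    constructor
    · intro h1
      exact eventually_atTop.1 (hbig.and h1)
    · intro h1
      exact (eventually_atTop.2 h1).mono fun N hN => hN.2

end Pool.Agent.Results.MP_16912e_nt.SquareRootSamples
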