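import Pool.Agent.Q299.PPR.Wt

/-!
# The truncated average of the `n`-torsion of the class groups of real quadratic fields is a mean waiting time

For the real quadratic field `K` of the square root of the squarefree number `d > 1` let `t` be the
number of the elements `c` of the class group `Cl` with `c ^ n = 1` (`n = p` prime: `p` to the power
of the `p`-rank).  Let `a > 2` and `M d ≥ 500 log d / log log d`.  Draw independently products of
`M d` independent random prime ideals of norm at most `(log d)^a`, and let `W` be the number of the
draws up to and including the first product whose class is an `n`-th power in `Cl`.  Averages are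
over the real quadratic fields of discriminant less than `X`.

* `average min(t, T) - T exp(-K/T) - ε ≤ average E[min(W, K)] ≤ average min(t, K) + ε` for all
  large `X`.
* The truncated averages of `t` tend to `c` (as first `X`, then `T` tends to infinity) if and only
  if the averages of the mean truncated waiting times tend to `c` (as first `X`, then `K` tends to
  infinity).
-/

set_option autoImplicit false

namespace Pool.Agent.Results.MP_16912e_nt.WaitingTimes

open Filter Finset NumberField Pool.Agent.Q299.PPR

theorem result : ∀ a : ℝ, 2 < a → ∀ M : ℕ → ℕ,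
    (∀ d : ℕ, 2 ≤ d → Squarefree d → 500 * (Real.log d / Real.log (Real.log d)) ≤ M d) →
    ∀ n : ℕ,
      (∀ K T : ℕ, 1 ≤ T → ∀ ε : ℝ, 0 < ε → ∀ᶠ X in atTop,
        avg X (fun d => min (tor n d : ℝ) T) - T * Real.exp (-(K / T)) - ε ≤
          avg X (wait a M n K) ∧
        avg X (wait a M n K) ≤ avg X (fun d => min (tor n d : ℝ) K) + ε) ∧
      (∀ c : ℝ,
        (∀ ε : ℝ, 0 < ε → ∀ᶠ T : ℕ in atTop, ∀ᶠ X in atTop,
          |avg X (fun d => min (tor n d : ℝ) T) - c| ≤ ε) ↔
        (∀ ε : ℝ, 0 < ε → ∀ᶠ K : ℕ in atTop, ∀ᶠ X in atTop,
          |avg X (wait a M n K) - c| ≤ ε)) :=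
  fun a ha M hM n => ⟨wait_sandwich a ha M hM n, wait_iff a ha M hM n⟩

end Pool.Agent.Results.MP_16912e_nt.WaitingTimes
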